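import Pool.Agent.MWH.StmtsC

/-! Row EDC of squad MWH: the common assembly. -/

namespace Pool.Agent.MWH.H3

open Pool.Agent.Helper14_MV Pool.Agent.Helper2_MV Pool.Agent.MVO Pool.Agent.MWL Pool.Agent.MWS

theorem LL2.or {k : ℕ} {a : ℕ → ℕ} {u v i : ℕ} (h : LL2 k a u v) (hi : i ≤ k) (ha : a i ≠ 0) :
    i = u ∨ i = v := by
  by_contra hn
  rw [not_or] at hn
  exact ha (h.az i hi hn.1 hn.2)

theorem edc (swt : SwtStmt) (edv : EdvStmt) (ehh : EhhStmt) (enl : EnlStmt) (eri : EriStmt)
    (enn : EnnStmt) (jll : JllStmt) : EdcStmt := by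
  intro β hS hL hR hK
  have hS8 : S8 β := hS.1
  have hB : BaseH β := hS8.toBaseH
  refine edv β hB ?_
  intro k a b i hv na nb
  constructor
  · intro ha1 hb1
    by_cases haL : ∃ u v, LL2 k a u v
    · obtain ⟨u, v, hl⟩ := haL
      have hi := LL2.or hl hv.ik hv.ai
      by_cases hbL : ∃ u v, LL2 k b u v
      · obtain ⟨u', v', hl'⟩ := hbL
        refine ⟨[(asm k (W a b i Stt.xy), asm k (W a b i Stt.yx))], ?_, ?_⟩
        · intro e he
          rw [List.mem_singleton] at he
          rw [he]
          exact jll β hS8 k a b i u v u' v' hv hl hl'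
        · intro θ _ _
          constructor
          · intro h e he
            rw [List.mem_singleton] at he
            rw [he]
            exact h
          · intro h
            exact h _ (List.mem_singleton.2 rfl)
      · have hnb : ∀ u v, ¬ LL2 k b u v := fun u v h => hbL ⟨u, v, h⟩
        rcases hi with rfl | rfl
        · exact hR k a b i v hv nb hl hnb hb1
        · exact hK k a b i u hv nb hl hnb hb1
    · have hna : ∀ u v, ¬ LL2 k a u v := fun u v h => haL ⟨u, v, h⟩
      by_cases hbL : ∃ u v, LL2 k b u v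
      · obtain ⟨u, v, hl⟩ := hbL
        have hi := LL2.or hl hv.ik hv.bi
        have hv' : Vd k b a i := (swt β β hB (fun _ _ h => h) k a b i hv).1
        have hE : Eg β k b a i Stt.xy Stt.yx := by
          rcases hi with rfl | rfl
          · exact hR k b a i v hv' na hl hna ha1
          · exact hK k b a i u hv' na hl hna ha1
        obtain ⟨L, hL1, hL2⟩ := hE
        refine ⟨L, hL1, ?_⟩
        intro θ hθ hn
        have h1 := ((swt β θ hB hθ k a b i hv).2 Stt.xy Stt.yx (fun h => by cases h)
          (fun h => by cases h)).2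
        have h2 : Tr θ k a b i Stt.xy Stt.yx ↔ Tr θ k b a i Stt.yx Stt.xy := h1
        have h3 : Tr θ k b a i Stt.yx Stt.xy ↔ Tr θ k b a i Stt.xy Stt.yx :=
          ⟨fun h => RR.symm h, fun h => RR.symm h⟩
        rw [h2, h3]
        exact hL2 θ hθ hn
      · have hnb : ∀ u v, ¬ LL2 k b u v := fun u v h => hbL ⟨u, v, h⟩
        exact enn β hS k a b i hv na nb hna hnb ha1 hb1
  · intro hb2
    by_cases ha2 : 2 ≤ a i
    · exact ehh β hS8 k a b i hv ha2 hb2
    · have ha1 : a i = 1 := by
        have := hv.ai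
        omega
      by_cases haL : ∃ u v, LL2 k a u v
      · obtain ⟨u, v, hl⟩ := haL
        rcases LL2.or hl hv.ik hv.ai with rfl | rfl
        · exact eri β hS8 k a b i v hv nb hl hb2
        · exact hL k a b i u hv nb hl hb2
      · exact enl β hS k a b i hv na (fun u v h => haL ⟨u, v, h⟩) ha1 hb2

end Pool.Agent.MWH.H3
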